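import Mathlib
import Pool.Graph.R_pool_sql_team_seeded_2aa45f1a.Results.MP_e99302_nt.LongRuns

/-!
# Heights at the numbers `2 ^ x 3 ^ y n + i`
-/

set_option autoImplicit false

namespace Pool.Agent.KS6_6.HR

open Filter Topology Pool.Agent.Results.MP_e99302_nt.LongRuns

open Pool.Agent.Results.MP_2d22f3_nt.CoalescingRunsThreshold (T Reaches)

/-- the trajectories from `n` on merge -/
def Good (n : ℕ) : Prop := 16 ≤ n ∧ ∃ t, 4 ^ t ≤ n ∧ ∀ h : ℕ, (h : ℝ) ≤ R n → T^[t] (n + h) = T^[t] n

theorem good_dens : HasDensity Good 1 :=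
  Pool.Agent.H499R2.CO.HD_congr (dens_ge 16) Pool.Agent.Results.MP_2d22f3_nt.CoalescingRunsThreshold.result.1
    (fun _ _ hn => ⟨fun h => ⟨hn, h⟩, fun h => h.2⟩)

theorem good_height {n h k : ℕ} (hn : Good n) (hh : (h : ℝ) ≤ R n) : HeightEq (n + h) k ↔ HeightEq n k := by
  obtain ⟨hn16, t, ht, h1⟩ := hn
  have hhn : h < n := by
    have := R_lt hn16
    have : (h : ℝ) < n := by linarith
    exact_mod_cast this
  have h2 : 2 ^ (t + odds n t) ≤ n := by
    calc 2 ^ (t + odds n t) ≤ 2 ^ (t + t) :=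
          Nat.pow_le_pow_right (by norm_num) (by have := odds_le n t; omega)
      _ = 4 ^ t := by rw [pow_add, ← mul_pow]; norm_num
      _ ≤ n := ht
  have h3 := merge_C ht hhn (h1 h hh)
  exact ⟨height_merge (by omega) h2 h3.symm, height_merge h2 (by omega) h3⟩

theorem height_unique {n k l : ℕ} (h : HeightEq n k) (h' : HeightEq n l) : k = l := by
  rcases lt_trichotomy k l with h1 | h1 | h1
  · exact absurd h.1 (h'.2 k h1)
  · exact h1
  · exact absurd h'.1 (h.2 l h1)

theorem height_step {n k : ℕ} (hn : n ≠ 1) : HeightEq n (k + 1) ↔ HeightEq (C n) k := by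
  constructor
  · rintro ⟨h1, h2⟩
    refine ⟨by rwa [Function.iterate_succ_apply] at h1, fun j hj => ?_⟩
    have := h2 (j + 1) (by omega)
    rwa [Function.iterate_succ_apply] at this
  · rintro ⟨h1, h2⟩
    refine ⟨by rwa [Function.iterate_succ_apply], fun j hj => ?_⟩
    rcases j with _ | j
    · exact hn
    · rw [Function.iterate_succ_apply]
      exact h2 j (by omega)

theorem height_two {n k : ℕ} (hn : 1 ≤ n) : HeightEq (2 * n) (k + 1) ↔ HeightEq n k := by
  rw [height_step (by omega)]
  have : C (2 * n) = n := by unfold C; rw [if_pos (by omega)]; omega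
  rw [this]

theorem height_two_pow {n k : ℕ} (hn : 1 ≤ n) (x : ℕ) : HeightEq (2 ^ x * n) (k + x) ↔ HeightEq n k := by
  induction x with
  | zero => simp
  | succ x ih =>
    rw [← ih, pow_succ', mul_assoc, ← add_assoc, height_two (Nat.mul_pos (by positivity) hn)]

/-- multiplication by `3` -/
theorem height_three {n k : ℕ} (hn : Good n) (hn' : Good (3 * n)) (h4 : 1 ≤ R n) (h4' : 4 ≤ R (3 * n)) :
    HeightEq n (k + 1) ↔ HeightEq (3 * n) k := by
  have h16 := hn.1
  rcases Nat.mod_two_eq_zero_or_one n with h | h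
  · have e : C (n + 1) = 3 * n + 4 := by unfold C; rw [if_neg (by omega)]; ring
    rw [← good_height hn (h := 1) (by push_cast; linarith), height_step (by omega), e,
      good_height hn' (h := 4) (by push_cast; linarith)]
  · have e : C n = 3 * n + 1 := by unfold C; rw [if_neg (by omega)]
    rw [height_step (by omega), e, good_height hn' (h := 1) (by push_cast; linarith)]

/-- The pattern: `n` has the height `k`, and all the integers `2 ^ x 3 ^ y n + i` with `x, y ≤ J`,
`i ≤ R (2 ^ x 3 ^ y n)`, have the height `k + x - y`. -/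
def Pattern (J n k : ℕ) : Prop :=
  J < k ∧ ∀ x y : ℕ, x ≤ J → y ≤ J → ∀ i : ℕ, (i : ℝ) ≤ R (2 ^ x * 3 ^ y * n) → HeightEq (2 ^ x * 3 ^ y * n + i) (k + x - y)

/-- all the numbers `2 ^ x 3 ^ y n` are good -/
def AllGood (J n : ℕ) : Prop :=
  2 ^ (J + 1) ≤ n ∧ (∀ m, n ≤ m → 4 ≤ R m) ∧ ∀ x y : ℕ, x ≤ J → y ≤ J → Good (2 ^ x * 3 ^ y * n)

theorem pattern_of_good {J n k : ℕ} (h : AllGood J n) (hk : HeightEq n k) : Pattern J n k := by
  obtain ⟨h1, h2, h3⟩ := h
  have hn1 : 1 ≤ n := le_trans (Nat.one_le_two_pow) h1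
  have hJk : J < k := by
    by_contra hcon
    push Not at hcon
    have h4 : 2 ^ (k + 1) ≤ n := (Nat.pow_le_pow_right (by norm_num) (by omega)).trans h1
    exact ne_one h4 k (by omega) hk.1
  have h4 : ∀ y : ℕ, y ≤ J → HeightEq (3 ^ y * n) (k - y) := by
    intro y
    induction y with
    | zero => intro _; simpa using hk
    | succ y ih =>
      intro hy
      have h5 := ih (by omega)
      have h6 := h3 0 y (by omega) (by omega)
      have h7 := h3 0 (y + 1) (by omega) hy
      rw [pow_zero, one_mul] at h6 h7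
      have e : 3 ^ (y + 1) * n = 3 * (3 ^ y * n) := by ring
      rw [e] at h7 ⊢
      have e2 : k - y = (k - (y + 1)) + 1 := by omega
      rw [e2] at h5
      have h8 : n ≤ 3 ^ y * n := Nat.le_mul_of_pos_left _ (by positivity)
      exact (height_three h6 h7 (by have := h2 _ h8; linarith) (h2 _ (by omega))).1 h5
  refine ⟨hJk, fun x y hx hy i hi => ?_⟩
  rw [good_height (h3 x y hx hy) hi, mul_assoc]
  have e : k + x - y = (k - y) + x := by omega
  rw [e, height_two_pow (Nat.mul_pos (by positivity) hn1)]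
  exact h4 y hy

theorem height_of_pattern {J n k : ℕ} (h : Pattern J n k) : HeightEq n k := by
  have := h.2 0 0 (by omega) (by omega) 0 (by
    unfold R
    push_cast
    exact (Real.exp_pos _).le)
  simpa using this

end Pool.Agent.KS6_6.HR
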