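import Mathlib
import Pool.Agent.KS6_6.HR.A

/-!
# Densities
-/

set_option autoImplicit false

namespace Pool.Agent.KS6_6.HR

open Filter Topology Pool.Agent.Results.MP_e99302_nt.LongRuns

theorem hd_congr {E P Q : ℕ → Prop} {l : ℝ} (hE : HasDensity E 1) (hP : HasDensity P l)
    (h : ∀ n, 1 ≤ n → E n → (P n ↔ Q n)) : HasDensity Q l :=
  Pool.Agent.H499R2.CO.HD_congr hE hP (fun n hn he => h n hn he)

theorem hd_and {P Q : ℕ → Prop} (hP : HasDensity P 1) (hQ : HasDensity Q 1) : HasDensity (fun n => P n ∧ Q n) 1 :=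
  hd_congr hP hQ fun _ _ hp => ⟨fun hq => ⟨hp, hq⟩, fun h => h.2⟩

theorem hd_true : HasDensity (fun _ => True) 1 :=
  hd_congr (dens_ge 0) (dens_ge 0) fun _ _ _ => ⟨fun _ => trivial, fun _ => Nat.zero_le _⟩

theorem hd_finset {ι : Type} (s : Finset ι) {P : ι → ℕ → Prop} (h : ∀ i ∈ s, HasDensity (P i) 1) :
    HasDensity (fun n => ∀ i ∈ s, P i n) 1 := by
  classical
  induction s using Finset.induction_on with
  | empty => exact hd_congr hd_true hd_true fun _ _ _ => ⟨fun _ i hi => absurd hi (Finset.notMem_empty i), fun _ => trivial⟩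
  | insert a s ha ih =>
    refine hd_congr hd_true (hd_and (h a (Finset.mem_insert_self a s)) (ih fun i hi => h i (Finset.mem_insert_of_mem hi)))
      fun n _ _ => ?_
    constructor
    · rintro ⟨h1, h2⟩ i hi
      rcases Finset.mem_insert.1 hi with rfl | h3
      · exact h1
      · exact h2 i h3
    · intro h1
      exact ⟨h1 a (Finset.mem_insert_self a s), fun i hi => h1 i (Finset.mem_insert_of_mem hi)⟩

theorem hd_not {P : ℕ → Prop} {l : ℝ} (hP : HasDensity P l) : HasDensity (fun n => ¬ P n) (1 - l) :=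
  Pool.Agent.H499R2.CO.HD_not hP

theorem hd_dil {P : ℕ → Prop} (h : HasDensity P 1) {c : ℕ} (hc : 1 ≤ c) : HasDensity (fun n => P (c * n)) 1 := by
  have h1 := hd_not h
  rw [sub_self] at h1
  have h2 : HasDensity (fun n => ¬ P (c * n)) 0 := by
    have h3 : Tendsto (fun N : ℕ => (c : ℝ) * (({n : ℕ | 1 ≤ n ∧ n ≤ c * N ∧ ¬ P n}.ncard : ℝ) / ((c * N : ℕ) : ℝ))) atTop (𝓝 (c * 0)) := by
      refine Tendsto.const_mul _ ?_
      exact h1.comp (tendsto_atTop_mono (fun N => Nat.le_mul_of_pos_left _ hc) tendsto_id)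
    rw [mul_zero] at h3
    unfold HasDensity
    refine squeeze_zero (fun N => by positivity) (fun N => ?_) h3
    have hcr : (0 : ℝ) < c := by exact_mod_cast hc
    rcases Nat.eq_zero_or_pos N with rfl | hN
    · simp
    have hNr : (0 : ℝ) < N := by exact_mod_cast hN
    rw [Nat.cast_mul, mul_div_assoc', mul_div_mul_left _ _ hcr.ne']
    apply div_le_div_of_nonneg_right _ hNr.le
    have hfin : {n : ℕ | 1 ≤ n ∧ n ≤ c * N ∧ ¬ P n}.Finite :=
      (Set.finite_Icc 1 (c * N)).subset fun n hn => ⟨hn.1, hn.2.1⟩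
    have h4 : {n : ℕ | 1 ≤ n ∧ n ≤ N ∧ ¬ P (c * n)}.ncard ≤ {n : ℕ | 1 ≤ n ∧ n ≤ c * N ∧ ¬ P n}.ncard := by
      refine Set.ncard_le_ncard_of_injOn (fun n => c * n) ?_ ?_ hfin
      · rintro n ⟨h5, h6, h7⟩
        exact ⟨Nat.mul_pos hc h5, Nat.mul_le_mul_left _ h6, h7⟩
      · intro a _ b _ hab
        exact Nat.eq_of_mul_eq_mul_left hc hab
    exact_mod_cast h4
  have h5 := hd_not h2
  rw [sub_zero] at h5
  exact hd_congr hd_true h5 fun n _ _ => not_not

theorem allGood_dens (J : ℕ) : HasDensity (AllGood J) 1 := by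
  obtain ⟨M, hM⟩ := eventually_atTop.1 (R_tendsto.eventually_ge_atTop (4 : ℝ))
  have h1 : HasDensity (fun n => ∀ m, n ≤ m → 4 ≤ R m) 1 :=
    hd_congr (dens_ge M) (dens_ge M) fun n _ hn => ⟨fun _ m hm => hM m (hn.trans hm), fun _ => hn⟩
  have h2 : HasDensity (fun n => ∀ p ∈ Finset.range (J + 1) ×ˢ Finset.range (J + 1), Good (2 ^ p.1 * 3 ^ p.2 * n)) 1 :=
    hd_finset _ fun p _ => hd_dil good_dens (Nat.mul_pos (by positivity) (by positivity))
  refine hd_congr hd_true (hd_and (dens_ge (2 ^ (J + 1))) (hd_and h1 h2)) fun n _ _ => ?_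
  unfold AllGood
  refine and_congr_right fun _ => and_congr_right fun _ => ?_
  constructor
  · intro h x y hx hy
    exact h (x, y) (Finset.mem_product.2 ⟨Finset.mem_range.2 (by omega), Finset.mem_range.2 (by omega)⟩)
  · rintro h ⟨x, y⟩ hp
    rw [Finset.mem_product, Finset.mem_range, Finset.mem_range] at hp
    exact h x y (by have := hp.1; simp only at this; omega) (by have := hp.2; simp only at this; omega)

/-- the integers of finite height with the pattern -/
theorem pattern_dens {δ : ℝ} (h : HasDensity (fun n => ∃ k, HeightEq n k) δ) (J : ℕ) :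
    HasDensity (fun n => ∃ k, Pattern J n k) δ :=
  hd_congr (allGood_dens J) h fun _ _ hn =>
    ⟨fun ⟨k, hk⟩ => ⟨k, pattern_of_good hn hk⟩, fun ⟨k, hk⟩ => ⟨k, height_of_pattern hk⟩⟩

end Pool.Agent.KS6_6.HR
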