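import Mathlib
import Pool.Agent.KS6_6.HR.B
import Pool.Agent.KS6_6.LP.Base

/-!
# Sparse sets along affine forms, and the law of the patterns along affine forms
-/

set_option autoImplicit false

namespace Pool.Agent.KS6_6.HR

open Finset Filter Topology Pool.Agent.KS6_24.ST

open Pool.Agent.Results.MP_e99302_nt.LongRuns (HeightEq R)

open Pool.Agent.KS6_6.LP (prob prob_eq prob_nonneg prob_mono prob_split prob_union lin Related Mem)

theorem set_card {r N : ℕ} {L : Fin r → ℤ} (hL : L ≠ 0) (b : ℤ) (E : Finset ℤ) :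
    #{n ∈ SH6.Bx r N | SH6.lf L n + b ∈ E} ≤ #E * N ^ (r - 1) := by
  classical
  obtain ⟨j, hj⟩ : ∃ j, L j ≠ 0 := by
    by_contra h
    push Not at h
    exact hL (funext h)
  rcases Nat.eq_zero_or_pos N with hN | hN
  · subst hN
    have : SH6.Bx r 0 = ∅ := by
      rw [← card_eq_zero, SH6.card_Bx]
      exact zero_pow (fun h => by subst h; exact j.elim0)
    rw [this]; simp
  set s := {n ∈ SH6.Bx r N | SH6.lf L n + b ∈ E} with hs
  have hkey : ∀ n n' : Fin r → ℤ, Function.update n j 1 = Function.update n' j 1 →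
      SH6.lf L n - SH6.lf L n' = L j * (n j - n' j) := by
    intro n n' h
    have h1 : ∀ i, i ≠ j → n i = n' i := by
      intro i hi
      have := congrFun h i
      rwa [Function.update_of_ne hi, Function.update_of_ne hi] at this
    unfold SH6.lf
    rw [← sum_sub_distrib, ← Finset.add_sum_erase univ _ (mem_univ j)]
    have h2 : ∑ i ∈ univ.erase j, (L i * n i - L i * n' i) = 0 := by
      apply sum_eq_zero
      intro i hi
      rw [h1 i (ne_of_mem_erase hi)]; ring
    rw [h2]; ring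
  have h1 : #s ≤ #E * #(s.image fun n => Function.update n j 1) := by
    apply card_le_mul_card_image
    intro a _
    apply card_le_card_of_injOn (fun n => SH6.lf L n + b)
    · intro n hn
      rw [mem_coe, mem_filter, hs, mem_filter] at hn
      exact hn.1.2
    · intro n hn n' hn' h
      rw [mem_coe, mem_filter] at hn hn'
      have h3 := hkey n n' (hn.2.trans hn'.2.symm)
      simp only at h
      have h4 : L j * (n j - n' j) = 0 := by rw [← h3]; linarith
      have h5 : n j - n' j = 0 := by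
        rcases mul_eq_zero.1 h4 with h | h
        · exact absurd h hj
        · exact h
      funext i
      by_cases hi : i = j
      · subst hi; linarith
      · have := congrFun (hn.2.trans hn'.2.symm) i
        rwa [Function.update_of_ne hi, Function.update_of_ne hi] at this
  refine h1.trans (Nat.mul_le_mul_left _ ?_)
  have h6 : s.image (fun n => Function.update n j 1) ⊆
      Fintype.piFinset (fun i : Fin r => if i = j then {(1 : ℤ)} else Icc (1 : ℤ) N) := by
    intro n hn
    obtain ⟨u, hu, rfl⟩ := mem_image.1 hn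
    rw [hs, mem_filter, SH6.mem_Bx] at hu
    rw [Fintype.mem_piFinset]
    intro i
    by_cases hi : i = j
    · subst hi; rw [Function.update_self, if_pos rfl]; exact mem_singleton_self _
    · rw [Function.update_of_ne hi, if_neg hi]; exact hu.1 i
  refine (card_le_card h6).trans ?_
  rw [Fintype.card_piFinset]
  have h7 : ∀ i : Fin r, #(if i = j then {(1 : ℤ)} else Icc (1 : ℤ) N) = if i = j then 1 else N := by
    intro i; split_ifs <;> simp
  simp only [h7]
  rw [← Finset.mul_prod_erase univ _ (mem_univ j), if_pos rfl, one_mul]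
  rw [prod_congr rfl (g := fun _ => N) (fun i hi => if_neg (ne_of_mem_erase hi)), prod_const, card_erase_of_mem (mem_univ j),
    card_univ, Fintype.card_fin]

/-- an affine form takes values in a sparse set rarely -/
theorem null_form {r : ℕ} {A : Fin r → ℤ} (hA : A ≠ 0) {P : ℕ → Prop}
    (hP : Pool.Agent.Results.MP_e99302_nt.LongRuns.HasDensity P 1) (H : ℕ) {ε : ℝ} (hε : 0 < ε) :
    ∀ᶠ N : ℕ in atTop, ∀ q : ℤ, |q| ≤ H * N → prob N (fun n => 0 < lin A n + q ∧ ¬ P (lin A n + q).toNat) ≤ ε := by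
  classical
  have hr1 : 1 ≤ r := by
    by_contra h
    have h0 : r = 0 := by omega
    subst h0
    exact hA (funext fun j => j.elim0)
  obtain ⟨D, hD⟩ : ∃ D : ℕ, D = ∑ j, (A j).natAbs + H + 1 := ⟨_, rfl⟩
  have hD1 : 1 ≤ D := by omega
  have hDr : (0 : ℝ) < D := by exact_mod_cast hD1
  have h1 := hd_not hP
  rw [sub_self] at h1
  have h3 : Tendsto (fun N : ℕ => (D : ℝ) * (({n : ℕ | 1 ≤ n ∧ n ≤ D * N ∧ ¬ P n}.ncard : ℝ) / ((D * N : ℕ) : ℝ))) atTop (𝓝 (D * 0)) := by
    refine Tendsto.const_mul _ ?_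
    exact h1.comp (tendsto_atTop_mono (fun N => Nat.le_mul_of_pos_left _ hD1) tendsto_id)
  rw [mul_zero] at h3
  filter_upwards [h3.eventually (eventually_le_nhds hε), eventually_ge_atTop 1] with N hN hN1 q hq
  have hNr : (0 : ℝ) < N := by exact_mod_cast hN1
  refine le_trans ?_ hN
  rw [Nat.cast_mul, mul_div_assoc', mul_div_mul_left _ _ hDr.ne', prob_eq]
  let E : Finset ℤ := (({n ∈ Icc 1 (D * N) | ¬ P n} : Finset ℕ)).image (fun n : ℕ => (n : ℤ))
  have hE : #E ≤ {n : ℕ | 1 ≤ n ∧ n ≤ D * N ∧ ¬ P n}.ncard := by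
    refine card_image_le.trans ?_
    rw [← Set.ncard_coe_finset]
    refine Set.ncard_le_ncard ?_ ((Set.finite_Icc 1 (D * N)).subset fun n hn => ⟨hn.1, hn.2.1⟩)
    intro n hn
    rw [mem_coe, mem_filter, mem_Icc] at hn
    exact ⟨hn.1.1, hn.1.2, hn.2⟩
  have h4 : #{n ∈ SH6.Bx r N | 0 < lin A n + q ∧ ¬ P (lin A n + q).toNat} ≤ #E * N ^ (r - 1) := by
    refine le_trans (card_le_card ?_) (set_card (N := N) hA q E)
    intro n hn
    rw [mem_filter] at hn ⊢
    refine ⟨hn.1, ?_⟩
    obtain ⟨hn1, hn2, hn3⟩ := hn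
    have e : SH6.lf A n + q = (((lin A n + q).toNat : ℕ) : ℤ) := by
      rw [Int.toNat_of_nonneg hn2.le]; rfl
    rw [e]
    refine mem_image_of_mem _ (mem_filter.2 ⟨mem_Icc.2 ⟨by omega, ?_⟩, hn3⟩)
    have h5 : |lin A n| ≤ (∑ j, (A j).natAbs : ℕ) * N := by
      unfold Pool.Agent.KS6_6.LP.lin
      refine (abs_sum_le_sum_abs _ _).trans ?_
      rw [Nat.cast_sum, sum_mul]
      refine sum_le_sum fun j _ => ?_
      rw [abs_mul, Int.natCast_natAbs]
      refine mul_le_mul_of_nonneg_left ?_ (abs_nonneg _)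
      have := mem_Icc.1 (SH6.mem_Bx.1 hn1 j)
      rw [abs_le]; constructor <;> omega
    have h6 : lin A n + q ≤ ((D * N : ℕ) : ℤ) := by
      have h7 := le_abs_self (lin A n)
      have h8 := le_abs_self q
      have h9 : ((D * N : ℕ) : ℤ) = ((∑ j, (A j).natAbs : ℕ) : ℤ) * N + H * N + N := by
        rw [hD]; push_cast; ring
      rw [h9]
      have : (0 : ℤ) ≤ N := Int.natCast_nonneg N
      linarith
    omega
  have h5 : (N : ℝ) ^ r = N ^ (r - 1) * N := by rw [← pow_succ]; congr 1; omega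
  rw [div_le_div_iff₀ (by positivity) hNr, h5]
  have h6 : (#{n ∈ SH6.Bx r N | 0 < lin A n + q ∧ ¬ P (lin A n + q).toNat} : ℝ)
      ≤ ({n : ℕ | 1 ≤ n ∧ n ≤ D * N ∧ ¬ P n}.ncard : ℝ) * (N : ℝ) ^ (r - 1) := by
    have := h4.trans (Nat.mul_le_mul_right _ hE)
    exact_mod_cast this
  calc _ ≤ (({n : ℕ | 1 ≤ n ∧ n ≤ D * N ∧ ¬ P n}.ncard : ℝ) * (N : ℝ) ^ (r - 1)) * N :=
        mul_le_mul_of_nonneg_right h6 hNr.le
    _ = _ := by ring

end Pool.Agent.KS6_6.HR
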