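import Mathlib
import Pool.Agent.KS6_6.HR.D

/-!
# The law of the patterns along affine forms
-/

set_option autoImplicit false

namespace Pool.Agent.KS6_6.HR

open Finset Filter Topology Pool.Agent.KS6_24.ST

open Pool.Agent.Results.MP_e99302_nt.LongRuns (HeightEq R height_merge ReachesC reachesC_step exists_height)

open Pool.Agent.KS6_6.LP (prob prob_eq prob_nonneg prob_mono prob_or prob_union lin Related Mem Invariant dens_facts k_sets)

/-- the integers of finite height -/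
def SZ : Set ℤ := {x | 0 < x ∧ ∃ k, HeightEq x.toNat k}

theorem fin_iff (n : ℕ) : (∃ k, HeightEq n k) ↔ ReachesC n := by
  constructor
  · rintro ⟨k, hk⟩
    exact ⟨k, hk.1⟩
  · exact exists_height

theorem C_toNat {x : ℤ} (hx : 0 < x) :
    (Pool.Agent.KS6_6.LP.C x).toNat = Pool.Agent.Results.MP_e99302_nt.LongRuns.C x.toNat ∧ 0 < Pool.Agent.KS6_6.LP.C x := by
  unfold Pool.Agent.KS6_6.LP.C Pool.Agent.Results.MP_e99302_nt.LongRuns.C
  rcases Int.emod_two_eq_zero_or_one x with h | h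
  · rw [if_pos h, if_pos (by omega)]; omega
  · rw [if_neg (by omega), if_neg (by omega)]; omega

theorem sz_inv : Invariant SZ := by
  intro x
  unfold SZ
  simp only [Set.mem_ofPred_eq, fin_iff]
  by_cases hx : 0 < x
  · obtain ⟨h1, h2⟩ := C_toNat hx
    rw [h1]
    refine ⟨fun h => ⟨h2, (reachesC_step _).1 h.2⟩, fun h => ⟨hx, (reachesC_step _).2 h.2⟩⟩
  · constructor
    · exact fun h => absurd h.1 hx
    · intro h
      exfalso
      have h1 := h.1
      unfold Pool.Agent.KS6_6.LP.C at h1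
      split_ifs at h1 <;> omega

theorem sz_dens {δ : ℝ} (hd : Pool.Agent.Results.MP_e99302_nt.LongRuns.HasDensity (fun n => ∃ k, HeightEq n k) δ) :
    Pool.Agent.KS6_6.LP.HasDensity 1 SZ δ := by
  unfold Pool.Agent.KS6_6.LP.HasDensity
  unfold Pool.Agent.Results.MP_e99302_nt.LongRuns.HasDensity at hd
  refine hd.congr fun N => ?_
  congr 3
  ext n
  simp only [Set.mem_ofPred_eq, SZ, one_mul, Int.toNat_natCast]
  constructor
  · rintro ⟨h1, h2, h3⟩; exact ⟨h1, h2, by omega, h3⟩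
  · rintro ⟨h1, h2, _, h3⟩; exact ⟨h1, h2, h3⟩

theorem forms_law (h : S_CONVU) {m r : ℕ} {B : Fin m → Fin r → ℤ} (hB : ∀ b, B b ≠ 0)
    (hrel : ∀ b b', b ≠ b' → ¬ Related (B b) (B b')) {δ : ℝ}
    (hd : Pool.Agent.Results.MP_e99302_nt.LongRuns.HasDensity (fun n => ∃ k, HeightEq n k) δ) {P E : ℕ → Prop}
    (hE : Pool.Agent.Results.MP_e99302_nt.LongRuns.HasDensity E 1) (hP : ∀ n, 1 ≤ n → E n → (P n ↔ ∃ k, HeightEq n k))
    (H : ℕ) {ε : ℝ} (hε : 0 < ε) : ∀ᶠ N : ℕ in atTop, ∀ q : Fin m → ℤ, (∀ b, |q b| ≤ H * N) →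
      ∀ K : Set (Fin r → ℝ), Convex ℝ K →
        |prob N (fun n => Mem K n ∧ ∀ b, 0 < lin (B b) n + q b ∧ P (lin (B b) n + q b).toNat)
          - δ ^ m * prob N (fun n => Mem K n ∧ ∀ b, 0 < lin (B b) n + q b)| ≤ ε := by
  classical
  have hf := dens_facts (s := 1) (Or.inl rfl) sz_inv (sz_dens hd)
  obtain ⟨N0, hN0⟩ := k_sets h hB hrel (s := fun _ => 1) (fun _ => Or.inl rfl) (S := fun _ => SZ) (fun _ => sz_inv)
    (δ := fun _ => δ) (fun _ => ⟨hf.1, hf.2.1⟩) (fun _ => hf.2.2) H (show 0 < ε / 2 by positivity)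
  have hn : ∀ᶠ N : ℕ in atTop, ∀ b : Fin m, ∀ q : ℤ, |q| ≤ H * N →
      prob N (fun n => 0 < lin (B b) n + q ∧ ¬ E (lin (B b) n + q).toNat) ≤ ε / (2 * (m + 1)) := by
    rw [eventually_all]
    intro b
    exact null_form (hB b) hE H (by positivity)
  filter_upwards [hn, eventually_ge_atTop N0] with N hN1 hN2 q hq K hK
  have h1 := hN0 N hN2 q hq K hK
  simp only [one_mul, prod_const, card_univ, Fintype.card_fin] at h1
  have h2 : prob N (fun n => ∃ b ∈ (univ : Finset (Fin m)), 0 < lin (B b) n + q b ∧ ¬ E (lin (B b) n + q b).toNat) ≤ ε / 2 := by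
    refine (prob_union univ N fun b n => 0 < lin (B b) n + q b ∧ ¬ E (lin (B b) n + q b).toNat).trans ?_
    refine (sum_le_sum fun b _ => hN1 b (q b) (hq b)).trans ?_
    rw [sum_const, card_univ, Fintype.card_fin, nsmul_eq_mul]
    rw [mul_div_assoc', div_le_div_iff₀ (by positivity) (by norm_num)]
    have : (0 : ℝ) ≤ m := Nat.cast_nonneg m
    nlinarith
  have h3 : prob N (fun n => Mem K n ∧ ∀ b, 0 < lin (B b) n + q b ∧ P (lin (B b) n + q b).toNat)
      ≤ prob N (fun n => Mem K n ∧ (∀ b, 0 < lin (B b) n + q b) ∧ ∀ b, lin (B b) n + q b ∈ SZ)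
        + prob N (fun n => ∃ b ∈ (univ : Finset (Fin m)), 0 < lin (B b) n + q b ∧ ¬ E (lin (B b) n + q b).toNat) := by
    refine (prob_mono fun n _ hn => ?_).trans (prob_or N _ _)
    by_cases hz : ∃ b ∈ (univ : Finset (Fin m)), 0 < lin (B b) n + q b ∧ ¬ E (lin (B b) n + q b).toNat
    · exact Or.inr hz
    · left
      push Not at hz
      refine ⟨hn.1, fun b => (hn.2 b).1, fun b => ⟨(hn.2 b).1, ?_⟩⟩
      exact (hP _ (by have := (hn.2 b).1; omega) (hz b (mem_univ b) (hn.2 b).1)).1 (hn.2 b).2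
  have h4 : prob N (fun n => Mem K n ∧ (∀ b, 0 < lin (B b) n + q b) ∧ ∀ b, lin (B b) n + q b ∈ SZ)
      ≤ prob N (fun n => Mem K n ∧ ∀ b, 0 < lin (B b) n + q b ∧ P (lin (B b) n + q b).toNat)
        + prob N (fun n => ∃ b ∈ (univ : Finset (Fin m)), 0 < lin (B b) n + q b ∧ ¬ E (lin (B b) n + q b).toNat) := by
    refine (prob_mono fun n _ hn => ?_).trans (prob_or N _ _)
    by_cases hz : ∃ b ∈ (univ : Finset (Fin m)), 0 < lin (B b) n + q b ∧ ¬ E (lin (B b) n + q b).toNat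
    · exact Or.inr hz
    · left
      push Not at hz
      refine ⟨hn.1, fun b => ⟨hn.2.1 b, ?_⟩⟩
      exact (hP _ (by have := hn.2.1 b; omega) (hz b (mem_univ b) (hn.2.1 b))).2 (hn.2.2 b).2
  rw [abs_le] at h1 ⊢
  constructor <;> linarith [h1.1, h1.2]

end Pool.Agent.KS6_6.HR
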